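import Pool.Agent.W412.TI.Spec

/-!
Part FOLD of project TI: the distance to the even integers.
-/

set_option autoImplicit false

namespace Pool.Agent.W562.TI

open Pool.Agent.W412.TI

private theorem rng_ne : (Set.range fun k : ℤ => 2 * (k : ℝ)).Nonempty := ⟨_, 0, rfl⟩

private theorem fold_le (v : ℝ) (m : ℤ) : fold v ≤ |v - 2 * m| := by
  unfold fold
  have h := Metric.infDist_le_dist_of_mem (x := v)
    (show (2 * (m : ℝ)) ∈ (Set.range fun k : ℤ => 2 * (k : ℝ)) from ⟨m, rfl⟩)
  rwa [Real.dist_eq] at h

private theorem le_fold (v d : ℝ) (h : ∀ k : ℤ, d ≤ |v - 2 * k|) : d ≤ fold v := by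
  unfold fold
  rw [Metric.le_infDist rng_ne]
  rintro _ ⟨k, rfl⟩
  rw [Real.dist_eq]
  exact h k

theorem foldFacts : S_FOLD := by
  refine ⟨fun v => Metric.infDist_nonneg, fun v => ?_, fun m v h1 h2 => ?_, fun m v h1 h2 => ?_⟩
  · refine (fold_le v (round (v / 2))).trans ?_
    have h := abs_sub_round (v / 2)
    have h2 : v - 2 * (round (v / 2) : ℝ) = 2 * (v / 2 - round (v / 2)) := by ring
    rw [h2, abs_mul, abs_two]
    linarith
  · refine le_antisymm ?_ (le_fold v _ fun k => ?_)
    · refine (fold_le v m).trans ?_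
      rw [abs_of_nonneg (by linarith)]
    · rcases le_or_gt k m with hk | hk
      · have hk' : (k : ℝ) ≤ m := by exact_mod_cast hk
        exact le_trans (by linarith) (le_abs_self _)
      · have hk' : (m : ℝ) + 1 ≤ k := by exact_mod_cast hk
        exact le_trans (by linarith) (neg_le_abs _)
  · refine le_antisymm ?_ (le_fold v _ fun k => ?_)
    · refine (fold_le v m).trans ?_
      rw [abs_of_nonpos (by linarith)]
      linarith
    · rcases le_or_gt m k with hk | hk
      · have hk' : (m : ℝ) ≤ k := by exact_mod_cast hk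
        exact le_trans (by linarith) (neg_le_abs _)
      · have hk' : (k : ℝ) + 1 ≤ m := by exact_mod_cast hk
        exact le_trans (by linarith) (le_abs_self _)

end Pool.Agent.W562.TI
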